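import Pool.Agent.H36Glue.Dim

/-!
# Sublinear block gluing and the entropy dimension of `ℤ²`-subshifts

A subshift over `ℤ²` with at least two points whose block gluing function satisfies `B(n) = o(n)`
has entropy dimension two.
-/

set_option autoImplicit false

namespace Pool.Agent.Results.MP_390418_an.EntropyDimension

open Filter Topology Pool.Agent.H36Glue
open scoped ENNReal

/-- **Entropy dimension two under sublinear block gluing.** -/
theorem result {A : Type} [Finite A] (X : Set (ℤ × ℤ → A)) (hX : Invariant X)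
    (h2 : X.Nontrivial) (hB : Tendsto (fun n : ℕ => (B X n : ℝ≥0∞) / n) atTop (𝓝 0)) :
    Tendsto (fun n : ℕ => Real.log (Real.log (cnt X n)) / Real.log n) atTop (𝓝 2) := by
  refine dim_two hX h2 fun δ hδ => ?_
  have h1 : ∀ᶠ n : ℕ in atTop, (B X n : ℝ≥0∞) / n < ENNReal.ofReal δ :=
    hB.eventually_lt_const (by simpa using hδ)
  filter_upwards [h1, eventually_ge_atTop 1] with n hn hn1
  have hn0 : (n : ℝ≥0∞) ≠ 0 := by
    have : n ≠ 0 := by omega
    exact_mod_cast this
  have hfin : B X n ≠ ⊤ := by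
    intro h
    rw [h, ENat.toENNReal_top, ENNReal.top_div_of_ne_top (by simp)] at hn
    exact absurd hn (by simp)
  obtain ⟨m, hm⟩ := ENat.ne_top_iff_exists.1 hfin
  refine ⟨m, hm.ge, ?_⟩
  rw [← hm, ENNReal.div_lt_iff (Or.inl hn0) (Or.inl (by simp))] at hn
  have h3 : ((m : ℕ∞) : ℝ≥0∞) = ENNReal.ofReal m := by simp
  have h4 : ENNReal.ofReal δ * n = ENNReal.ofReal (δ * n) := by
    rw [ENNReal.ofReal_mul hδ.le]; simp
  rw [h3, h4, ENNReal.ofReal_lt_ofReal_iff_of_nonneg (by positivity)] at hn
  exact hn.le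

end Pool.Agent.Results.MP_390418_an.EntropyDimension
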