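import Pool.Agent.H36Glue.Dens

/-!
# Subshifts of finite type with a fully supported invariant measure

Let `X` be a `ℤ²`-subshift of finite type and let `S ⊆ X` be a subshift with at least two points
such that `B_S(n) ≤ c n` for all large `n`, where `c < 1`. If `S` carries a fully supported invariant
probability measure (for instance, if `S` is minimal, or if the uniformly recurrent points of `S` are
dense in `S`), then the entropy of `X` is positive.

Two ingredients: gluing rectangles alternately in both directions shows that the number of `n × n`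
patterns of `S` is not bounded by `exp (M n)` for any `M`; so two different patterns of `S` have the
same frame. One of them occurs with positive density, and there the two patterns can be exchanged
independently of each other.
-/

set_option autoImplicit false

namespace Pool.Agent.Results.MP_390418_an.FullSupport

open Filter Topology MeasureTheory Pool.Agent.H36Glue

/-- **Positive entropy of subshifts of finite type that contain a subshift with small block gluing
function in which all patterns have positive density.** -/
theorem result {A : Type} [Finite A] [TopologicalSpace A] [DiscreteTopology A] [MeasurableSpace A]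
    [MeasurableSingletonClass A] (w : ℕ) (F : Set (Fin w × Fin w → A)) (S : Set (ℤ × ℤ → A))
    (hS : S ⊆ SFT w F) (hcl : IsClosed S) (hinv : Invariant S) (h2 : S.Nontrivial)
    (c : ℝ) (hc : c < 1) (hB : ∀ᶠ n : ℕ in atTop, BLe S n (c * n))
    (h : (∀ n : ℕ, ∀ u ∈ Lang S n, Dens (SFT w F) u) ∨
      (∃ μ : Measure (ℤ × ℤ → A), IsProbabilityMeasure μ ∧ (∀ᵐ x ∂μ, x ∈ S) ∧
        (∀ v, MeasurePreserving (tr v) μ μ) ∧ ∀ n : ℕ, ∀ u ∈ Lang S n, 0 < μ {x | pat n x = u}) ∨
      S ⊆ closure {x ∈ S | UR x} ∨
      ∀ x ∈ S, S ⊆ closure (Set.range fun v => tr v x)) :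
    ∃ c' : ℝ, 0 < c' ∧ ∀ᶠ n : ℕ in atTop, Real.exp (c' * n ^ 2) ≤ cnt (SFT w F) n := by
  refine pos_of_dens hS hinv h2 hc hB ?_
  have key : S ⊆ closure {x ∈ S | UR x} → ∀ n : ℕ, ∀ u ∈ Lang S n, Dens (SFT w F) u := by
    rintro hd n _ ⟨x, hx, rfl⟩
    obtain ⟨y, ⟨hy, hy2⟩, hy3⟩ := exists_pat_of_closure (hd hx) n
    rw [← hy3]
    exact dens_of_UR (hS hy) hy2 n
  rcases h with h | ⟨μ, hμ, h3, h4, h5⟩ | h | h
  · exact h
  · intro n u hu
    exact dens_of_measure μ (h3.mono fun x hx => hS hx) h4 (h5 n u hu)
  · exact key h
  · exact key fun x hx => subset_closure ⟨hx, UR_of_minimal hinv hcl h hx⟩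

end Pool.Agent.Results.MP_390418_an.FullSupport
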