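import Pool.Agent.H36Glue.SparseGlue
import Pool.Agent.H36Glue.SparseEnt

/-!
# A `ℤ²`-subshift of zero entropy with block gluing function `O(n / log n)`

The subshift consists of the sparse hierarchical configurations `x` over `{false, true}`: for every
`k`, cells with `true` that are connected by jumps of length less than `4 ^ (k + 1)` between cells
with `true` have distance less than `(k + 1) 4 ^ (k + 1)`.

Together with the theorem of `SummableGluing` this shows that the exponent `1` of `log n` is the
threshold for positive entropy among all `ℤ²`-subshifts.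
-/

set_option autoImplicit false

namespace Pool.Agent.Results.MP_390418_an.SharpExample

open Filter Topology Pool.Agent.H36Glue Pool.Agent.H36Glue.Sparse

/-- **A zero-entropy subshift with gluing function `O(n / log n)`** whose only configuration with a
period is the zero configuration. -/
theorem result : ∃ X : Set (ℤ × ℤ → Bool), IsClosed X ∧ Invariant X ∧ X.Infinite ∧
    (∀ x ∈ X, x ≠ (fun _ => false) → ∀ v : ℤ × ℤ, v ≠ 0 → tr v x ≠ x) ∧
    (∃ C : ℝ, ∀ᶠ n : ℕ in atTop, BLe X n (C * (n / Real.log n))) ∧
    Tendsto (fun n : ℕ => Real.log (cnt X n) / (n : ℝ) ^ 2) atTop (𝓝 0) :=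
  ⟨XX, isClosed_XX, invariant_XX, infinite_XX, fun _ hx h0 _ hv => aperiodic hx h0 hv, BLe_XX,
    entropy_zero⟩

end Pool.Agent.Results.MP_390418_an.SharpExample
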