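import Pool.Agent.H36Glue.Growth

/-!
# Block gluing and positive entropy of `ℤ²`-subshifts

Let `X` be a subshift over `ℤ²` with at least two points. If the series `∑ B(2^k) / 2^k` of the
block gluing function converges, then the entropy of `X` is positive. In particular this is the case
if `B(n) ≤ n / (log n)^(1 + ε)` for all large `n`.

The proof iterates an inequality `|L_n|^4 ≤ |L_W|`, which holds whenever `2 n + B(W) ≤ W`: four
blocks of side `n` can be put into the corners of a block of side `W`.
-/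

set_option autoImplicit false

namespace Pool.Agent.Results.MP_390418_an.SummableGluing

open Filter Topology Pool.Agent.H36Glue
open scoped ENNReal

/-- **Positive entropy under summable block gluing.** -/
theorem result {A : Type} [Finite A] (X : Set (ℤ × ℤ → A)) (hX : Invariant X)
    (h2 : X.Nontrivial) :
    ((∑' k : ℕ, (B X (2 ^ k) : ℝ≥0∞) / 2 ^ k) ≠ ∞ →
      ∃ c : ℝ, 0 < c ∧ ∀ n : ℕ, Real.exp (c * n ^ 2) ≤ cnt X n) ∧
    (∀ ε : ℝ, 0 < ε → (∀ᶠ n : ℕ in atTop, BLe X n (n / Real.log n ^ (1 + ε))) →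
      ∃ c : ℝ, 0 < c ∧ ∀ n : ℕ, Real.exp (c * n ^ 2) ≤ cnt X n) := by
  constructor
  · intro h
    have hfin : ∀ k, B X (2 ^ k) ≠ ⊤ := by
      intro k hk
      have h3 := ENNReal.ne_top_of_tsum_ne_top h k
      rw [hk] at h3
      apply h3
      rw [ENat.toENNReal_top]
      exact ENNReal.top_div_of_ne_top (by simp)
    refine exp_growth hX h2 (fun k => (B X (2 ^ k)).toNat)
      (Eventually.of_forall fun k => (ENat.natCast_toNat (hfin k)).ge) ?_
    have h4 := ENNReal.summable_toReal h
    refine h4.congr fun k => ?_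
    obtain ⟨m, hm⟩ := ENat.ne_top_iff_exists.1 (hfin k)
    rw [ENNReal.toReal_div, ← hm]
    simp
  · intro ε hε h
    obtain ⟨N, hN⟩ := eventually_atTop.1 h
    have hl2 : 0 < Real.log 2 := Real.log_pos (by norm_num)
    refine exp_growth hX h2 (fun k => ⌊(2 : ℝ) ^ k / (k * Real.log 2) ^ (1 + ε)⌋₊) ?_ ?_
    · filter_upwards [eventually_ge_atTop N] with k hk
      have h3 : N ≤ 2 ^ k := hk.trans Nat.lt_two_pow_self.le
      obtain ⟨m, hm1, hm2⟩ := hN _ h3
      refine hm1.trans ?_
      have h4 : Real.log ((2 ^ k : ℕ) : ℝ) = k * Real.log 2 := by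
        push_cast
        rw [Real.log_pow]
      rw [h4] at hm2
      have : m ≤ ⌊(2 : ℝ) ^ k / (k * Real.log 2) ^ (1 + ε)⌋₊ := by
        apply Nat.le_floor
        exact_mod_cast hm2
      exact_mod_cast this
    · have hs : Summable fun k : ℕ => (1 / Real.log 2 ^ (1 + ε)) * (1 / (k : ℝ) ^ (1 + ε)) :=
        ((Real.summable_one_div_nat_rpow).2 (by linarith)).mul_left _
      refine Summable.of_nonneg_of_le (fun k => by positivity) (fun k => ?_) hs
      rw [div_le_iff₀ (by positivity)]
      refine (Nat.floor_le (by positivity)).trans (le_of_eq ?_)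
      rw [Real.mul_rpow (by positivity) hl2.le]
      rw [div_mul_div_comm, one_mul, one_div, div_eq_mul_inv, mul_comm, mul_comm ((k : ℝ) ^ (1 + ε))]

end Pool.Agent.Results.MP_390418_an.SummableGluing
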